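import Pool.Agent.Helper25.PCap.GoalsS

/-!
# Packet QF (MP_576c25_an)
-/

set_option autoImplicit false
open MeasureTheory Set Filter Topology
open scoped ContDiff Real

noncomputable section
namespace Pool.Agent.Helper11.PCap
open Pool.Agent.Helper25.PCap

theorem E_hasDerivAt (x : ℝ) : HasDerivAt expNegInvGlue ((x⁻¹) ^ 2 * expNegInvGlue x) x := by
  have h := expNegInvGlue.hasDerivAt_polynomial_eval_inv_mul 1 x
  simpa using h

theorem E_le_one (x : ℝ) : expNegInvGlue x ≤ 1 := by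
  unfold expNegInvGlue
  split_ifs with h
  · exact zero_le_one
  · rw [Real.exp_le_one_iff]
    have : 0 < x := not_le.1 h
    have : 0 < x⁻¹ := inv_pos.2 this
    linarith

theorem E_deriv_bound (x : ℝ) : |(x⁻¹) ^ 2 * expNegInvGlue x| ≤ 2 := by
  by_cases hx : x ≤ 0
  · rw [expNegInvGlue.zero_of_nonpos hx, mul_zero, abs_zero]
    norm_num
  · have hx0 : 0 < x := not_le.1 hx
    have hy : 0 < x⁻¹ := inv_pos.2 hx0
    rw [abs_of_nonneg (mul_nonneg (sq_nonneg _) (expNegInvGlue.nonneg _))]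
    unfold expNegInvGlue
    rw [if_neg hx]
    have h1 := Real.quadratic_le_exp_of_nonneg hy.le
    have h2 : (x⁻¹) ^ 2 ≤ 2 * Real.exp (x⁻¹) := by nlinarith
    calc (x⁻¹) ^ 2 * Real.exp (-x⁻¹) ≤ 2 * Real.exp (x⁻¹) * Real.exp (-x⁻¹) := by gcongr
      _ = 2 := by rw [mul_assoc, ← Real.exp_add, add_neg_cancel, Real.exp_zero, mul_one]

theorem qf_hasFDerivAt (h : ℝ) (z : ℝ × ℝ) : ∃ A : (ℝ × ℝ) →L[ℝ] ℝ, HasFDerivAt (qf h) A z ∧ ‖A‖ ≤ 6 := by
  have h1 : HasFDerivAt (fun y : ℝ × ℝ => expNegInvGlue y.1)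
      (((z.1⁻¹) ^ 2 * expNegInvGlue z.1) • ContinuousLinearMap.fst ℝ ℝ ℝ) z :=
    (E_hasDerivAt z.1).comp_hasFDerivAt z hasFDerivAt_fst
  set c : ℝ := (((h - (Real.sin z.2) ^ 2)⁻¹) ^ 2 * expNegInvGlue (h - (Real.sin z.2) ^ 2)) *
    (-(2 * Real.sin z.2 * Real.cos z.2)) with hc
  have h0 : HasDerivAt (fun θ : ℝ => expNegInvGlue (h - (Real.sin θ) ^ 2)) c z.2 := by
    have e1 : HasDerivAt (fun θ : ℝ => h - (Real.sin θ) ^ 2) (-(2 * Real.sin z.2 * Real.cos z.2)) z.2 := by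
      have := ((Real.hasDerivAt_sin z.2).pow 2).const_sub h
      simpa using this
    exact (E_hasDerivAt _).comp z.2 e1
  have h2 : HasFDerivAt (fun y : ℝ × ℝ => expNegInvGlue (h - (Real.sin y.2) ^ 2))
      (c • ContinuousLinearMap.snd ℝ ℝ ℝ) z := h0.comp_hasFDerivAt z hasFDerivAt_snd
  refine ⟨_, h1.mul h2, ?_⟩
  have n1 : ‖ContinuousLinearMap.fst ℝ ℝ ℝ‖ ≤ 1 := ContinuousLinearMap.norm_fst_le ℝ ℝ ℝ
  have n2 : ‖ContinuousLinearMap.snd ℝ ℝ ℝ‖ ≤ 1 := ContinuousLinearMap.norm_snd_le ℝ ℝ ℝ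
  have a1 : |expNegInvGlue z.1| ≤ 1 := by
    rw [abs_of_nonneg (expNegInvGlue.nonneg _)]; exact E_le_one _
  have a2 : |expNegInvGlue (h - (Real.sin z.2) ^ 2)| ≤ 1 := by
    rw [abs_of_nonneg (expNegInvGlue.nonneg _)]; exact E_le_one _
  have a3 := E_deriv_bound z.1
  have a4 : |c| ≤ 4 := by
    rw [hc, abs_mul]
    have e1 := E_deriv_bound (h - (Real.sin z.2) ^ 2)
    have e2 : |-(2 * Real.sin z.2 * Real.cos z.2)| ≤ 2 := by
      rw [abs_neg, abs_mul, abs_mul]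
      have s1 := Real.abs_sin_le_one z.2
      have s2 := Real.abs_cos_le_one z.2
      have : |(2 : ℝ)| = 2 := abs_of_pos two_pos
      rw [this]
      nlinarith [abs_nonneg (Real.sin z.2), abs_nonneg (Real.cos z.2)]
    calc _ ≤ 2 * 2 := mul_le_mul e1 e2 (abs_nonneg _) (by norm_num)
      _ = 4 := by norm_num
  refine (norm_add_le _ _).trans ?_
  rw [norm_smul, norm_smul, norm_smul, norm_smul]
  simp only [Real.norm_eq_abs]
  have f1 : |expNegInvGlue z.1| * (|c| * ‖ContinuousLinearMap.snd ℝ ℝ ℝ‖) ≤ 1 * (4 * 1) := by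
    gcongr
  have f2 : |expNegInvGlue (h - (Real.sin z.2) ^ 2)| *
      (|(z.1⁻¹) ^ 2 * expNegInvGlue z.1| * ‖ContinuousLinearMap.fst ℝ ℝ ℝ‖) ≤ 1 * (2 * 1) := by
    gcongr
  linarith

theorem pkQF : GQF := by
  refine ⟨fun h => ⟨?_, ⟨6, fun z => ?_⟩, fun z => ⟨?_, ?_⟩, fun z hz => ?_, fun z hz => ?_,
    fun z hz1 hz2 => ?_, fun τ τ' θ hτ => ?_, fun τ θ θ' hθ => ?_⟩, fun h h' z hh => ?_⟩
  · unfold qf
    exact (expNegInvGlue.contDiff.comp contDiff_fst).mul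
      (expNegInvGlue.contDiff.comp (contDiff_const.sub ((Real.contDiff_sin.comp contDiff_snd).pow 2)))
  · obtain ⟨A, hA, hn⟩ := qf_hasFDerivAt h z
    rw [hA.fderiv]
    exact hn
  · exact mul_nonneg (expNegInvGlue.nonneg _) (expNegInvGlue.nonneg _)
  · exact mul_le_one₀ (E_le_one _) (expNegInvGlue.nonneg _) (E_le_one _)
  · unfold qf
    rw [expNegInvGlue.zero_of_nonpos hz, zero_mul]
  · unfold qf
    rw [expNegInvGlue.zero_of_nonpos (x := h - Real.sin z.2 ^ 2) (by linarith), mul_zero]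
  · exact mul_pos (expNegInvGlue.pos_of_pos hz1) (expNegInvGlue.pos_of_pos (by linarith))
  · exact mul_le_mul_of_nonneg_right (expNegInvGlue.monotone hτ) (expNegInvGlue.nonneg _)
  · exact mul_le_mul_of_nonneg_left (expNegInvGlue.monotone (by
      show h - Real.sin θ' ^ 2 ≤ h - Real.sin θ ^ 2
      linarith)) (expNegInvGlue.nonneg _)
  · exact mul_le_mul_of_nonneg_left (expNegInvGlue.monotone (by linarith)) (expNegInvGlue.nonneg _)

end Pool.Agent.Helper11.PCap
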